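import Pool.Agent.U208.SI.Stm

/-! Project SI (helper208), package GC (helper580): colourings of the grid. -/

set_option autoImplicit false

namespace Pool.Agent.U208.SI

open Finset MeasureTheory ProbabilityTheory
open scoped ENNReal

/-- the euclidean norm -/
noncomputable def gcn {D : ℕ} (x : Fin D → ℝ) : ℝ :=
  ‖(WithLp.toLp 2 x : EuclideanSpace ℝ (Fin D))‖

lemma gcn_nonneg {D : ℕ} (x : Fin D → ℝ) : 0 ≤ gcn x := norm_nonneg _

lemma gcn_sq {D : ℕ} (x : Fin D → ℝ) : gcn x ^ 2 = sq x := by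
  unfold gcn sq
  rw [EuclideanSpace.norm_sq_eq]
  simp

lemma gcn_add {D : ℕ} (x e : Fin D → ℝ) : gcn (x + e) ≤ gcn x + gcn e := by
  unfold gcn
  rw [WithLp.toLp_add]
  exact norm_add_le _ _

lemma gcn_neg {D : ℕ} (x : Fin D → ℝ) : gcn (-x) = gcn x := by
  unfold gcn
  rw [WithLp.toLp_neg, norm_neg]

lemma gcn_ge {D : ℕ} (x e : Fin D → ℝ) : gcn x - gcn e ≤ gcn (x + e) := by
  have h := gcn_add (x + e) (-e)
  rw [gcn_neg, add_neg_cancel_right] at h
  linarith

lemma gcn_le {D : ℕ} (x : Fin D → ℝ) {c : ℝ} (hc : 0 ≤ c) (h : ∀ i, |x i| ≤ c) :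
    gcn x ≤ c * √(D : ℝ) := by
  have h1 : gcn x ^ 2 ≤ (c * √(D : ℝ)) ^ 2 := by
    rw [gcn_sq, mul_pow, Real.sq_sqrt (Nat.cast_nonneg D)]
    unfold sq
    calc ∑ i, x i ^ 2 ≤ ∑ _i : Fin D, c ^ 2 := by
          refine Finset.sum_le_sum fun i _ => ?_
          rw [← sq_abs]
          exact pow_le_pow_left₀ (abs_nonneg _) (h i) 2
      _ = c ^ 2 * D := by
          rw [Finset.sum_const, Finset.card_univ, Fintype.card_fin, nsmul_eq_mul]
          ring
  exact le_of_sq_le_sq h1 (by positivity)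

lemma le_gcn {D : ℕ} (x : Fin D → ℝ) {a : ℝ} (_ha : 0 ≤ a) (h : a ≤ sq x) : √a ≤ gcn x := by
  rw [← gcn_sq] at h
  exact Real.sqrt_le_iff.2 ⟨gcn_nonneg x, h⟩ |> id

/-- the cell of a grid point -/
def gcell {D q : ℕ} (v : Fin D → Fin (2 * q)) : Set (Fin D → ℝ) :=
  Set.univ.pi fun i => Set.Ico (pt v i) (pt v i + 1 / q)

lemma gcell_meas {D q : ℕ} (v : Fin D → Fin (2 * q)) : MeasurableSet (gcell v) :=
  MeasurableSet.univ_pi fun _ => measurableSet_Ico

lemma box_meas (D : ℕ) : MeasurableSet (box D) := by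
  have : box D = Set.univ.pi fun _ => Set.Icc (-1 : ℝ) 1 := by
    ext x
    constructor
    · intro h i _
      exact abs_le.1 (h i)
    · intro h i
      exact abs_le.2 (h i (Set.mem_univ i))
  rw [this]
  exact MeasurableSet.univ_pi fun _ => measurableSet_Icc

lemma gcell_box {D q : ℕ} (hq : 0 < q) (v : Fin D → Fin (2 * q)) : gcell v ⊆ box D := by
  intro x hx i
  have h1 := hx i (Set.mem_univ i)
  obtain ⟨h2, h3⟩ := h1
  have hq' : (0 : ℝ) < q := by exact_mod_cast hq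
  have h4 : ((v i : ℕ) : ℝ) + 1 ≤ 2 * q := by exact_mod_cast (v i).isLt
  have h5 : (0 : ℝ) ≤ ((v i : ℕ) : ℝ) := Nat.cast_nonneg _
  unfold pt at h2 h3
  rw [abs_le]
  constructor
  · have : (0 : ℝ) ≤ ((v i : ℕ) : ℝ) / q := by positivity
    linarith
  · have h6 : ((v i : ℕ) : ℝ) / q + 1 / q ≤ 2 := by
      rw [← add_div, div_le_iff₀ hq']
      exact h4
    linarith

lemma gcell_near {D q : ℕ} (hq : 0 < q) (v : Fin D → Fin (2 * q)) (x : Fin D → ℝ)
    (hx : x ∈ gcell v) : gcn (x - pt v) ≤ 1 / q * √(D : ℝ) := by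
  have hq' : (0 : ℝ) < q := by exact_mod_cast hq
  refine gcn_le _ (by positivity) fun i => ?_
  obtain ⟨h2, h3⟩ := hx i (Set.mem_univ i)
  rw [Pi.sub_apply, abs_le]
  have : (0 : ℝ) < 1 / q := by positivity
  constructor <;> linarith

theorem GC_ok : S_GC := by
  classical
  intro hPLB hTM r β hr hβ hFar q D k η hη hηr hq4 hD C hC
  have hq : 0 < q := by
    rcases Nat.eq_zero_or_pos q with h | h
    · rw [h] at hq4
      simp at hq4
      linarith
    · exact h
  have hq' : (0 : ℝ) < q := by exact_mod_cast hq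
  have hD' : (1 : ℝ) ≤ D := by exact_mod_cast hD
  have hD0 : (0 : ℝ) < D := by linarith
  obtain ⟨s, hs⟩ : ∃ s : ℝ, s = √(η * D) := ⟨_, rfl⟩
  obtain ⟨t, ht⟩ : ∃ t : ℝ, t = √(r * D) := ⟨_, rfl⟩
  have hs0 : 0 ≤ s := by rw [hs]; exact Real.sqrt_nonneg _
  have hst : s ≤ t := by
    rw [hs, ht]
    exact Real.sqrt_le_sqrt (mul_le_mul_of_nonneg_right hηr hD0.le)
  have hs2 : s ^ 2 = η * D := by rw [hs]; exact Real.sq_sqrt (by positivity)
  have ht2 : t ^ 2 = r * D := by rw [ht]; exact Real.sq_sqrt (by positivity)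
  have hδ : 1 / (q : ℝ) * √(D : ℝ) ≤ s / 4 := by
    rw [hs, Real.sqrt_mul hη.le]
    have h1 : 1 / (q : ℝ) ≤ √η / 4 := by
      rw [div_le_div_iff₀ hq' (by norm_num)]
      linarith
    have h2 := mul_le_mul_of_nonneg_right h1 (Real.sqrt_nonneg (D : ℝ))
    linarith
  have hnear : ∀ (v : Fin D → Fin (2 * q)) (x : Fin D → ℝ), x ∈ gcell v →
      gcn (x - pt v) ≤ s / 4 := fun v x hx => (gcell_near hq v x hx).trans hδ
  -- the sets of the colours
  obtain ⟨A, hA⟩ : ∃ A : Fin k → Set (Fin D → ℝ), A = fun j =>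
    ⋃ v ∈ {v : Fin D → Fin (2 * q) | C v = j ∧ r * D ≤ sq (pt v)}, gcell v := ⟨_, rfl⟩
  have hAm : ∀ j, MeasurableSet (A j) := by
    intro j
    rw [hA]
    exact MeasurableSet.biUnion (Set.to_countable _) fun v _ => gcell_meas v
  have hmemA : ∀ j x, x ∈ A j ↔ ∃ v : Fin D → Fin (2 * q), (C v = j ∧ r * D ≤ sq (pt v)) ∧
      x ∈ gcell v := by
    intro j x
    rw [hA]
    simp only [Set.mem_ofPred_eq, Set.mem_iUnion, exists_prop]
  have hAbox : ∀ j, A j ⊆ box D := by
    intro j x hx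
    obtain ⟨v, _, hv⟩ := (hmemA j x).1 hx
    exact gcell_box hq v hv
  have hsum : ∀ j, ∀ x ∈ A j, ∀ y ∈ A j, η * D / 4 ≤ sq (x + y) := by
    intro j x hx y hy
    obtain ⟨u, ⟨hu1, hu2⟩, hu3⟩ := (hmemA j x).1 hx
    obtain ⟨v, ⟨hv1, hv2⟩, hv3⟩ := (hmemA j y).1 hy
    have n1 := hnear u x hu3
    have n2 := hnear v y hv3
    have e1 : x + y = (pt u + pt v) + ((x - pt u) + (y - pt v)) := by
      ext i
      simp only [Pi.add_apply, Pi.sub_apply]
      ring
    have n3 := gcn_ge (pt u + pt v) ((x - pt u) + (y - pt v))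
    have n4 := gcn_add (x - pt u) (y - pt v)
    rw [← e1] at n3
    have hmain : s ≤ gcn (pt u + pt v) := by
      by_cases huv : u = v
      · subst huv
        have h1 : t ≤ gcn (pt u) := by rw [ht]; exact le_gcn _ (by positivity) hu2
        have h2 : gcn (pt u + pt u) = 2 * gcn (pt u) := by
          have h3 : gcn (pt u + pt u) ^ 2 = (2 * gcn (pt u)) ^ 2 := by
            rw [mul_pow, gcn_sq, gcn_sq]
            unfold sq
            rw [Finset.mul_sum]
            refine Finset.sum_congr rfl fun i _ => ?_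
            rw [Pi.add_apply]
            ring
          exact (pow_left_inj₀ (gcn_nonneg _) (mul_nonneg zero_le_two (gcn_nonneg _))
            two_ne_zero).1 h3
        rw [h2]
        linarith
      · have h1 : ¬ Rel r η u v := fun h => hC u v h (by rw [hu1, hv1])
        have h2 : ¬ sq (pt u + pt v) ≤ η * D := fun h => h1 ⟨huv, hu2, hv2, h⟩
        rw [hs]
        exact le_gcn _ (by positivity) (not_le.1 h2).le
    have h5 : s / 2 ≤ gcn (x + y) := by linarith
    have h6 := pow_le_pow_left₀ (by linarith) h5 2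
    rw [gcn_sq, div_pow, hs2] at h6
    linarith
  have hAmu : ∀ j, mu D (A j) ≤ ENNReal.ofReal (Real.exp (-(η * D / 32))) * mu D Set.univ := by
    intro j
    have h := hPLB D (A j) (η * D / 4) (hAm j) (hAbox j) (hsum j)
    have e1 : η * D / 4 / 8 = η * D / 32 := by ring
    rwa [e1] at h
  -- the union of the sets
  have hac : mu D ≪ volume.restrict (box D) := withDensity_absolutelyContinuous _ _
  have hbox : ∀ᵐ x ∂(mu D), x ∈ box D := hac.ae_le (ae_restrict_mem (box_meas D))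
  have hone : ∀ᵐ x ∂(mu D), ∀ i, x i ≠ 1 := by
    rw [ae_all_iff]
    intro i
    have h1 : ∀ᵐ x : Fin D → ℝ, x i ≠ 1 := by
      rw [ae_iff]
      simp only [not_not]
      rw [volume_pi]
      exact Measure.pi_hyperplane _ i 1
    exact hac.ae_le (ae_restrict_of_ae h1)
  have hcov : mu D {x | 4 * r * D ≤ sq x} ≤ mu D (⋃ j, A j) := by
    refine measure_mono_ae ?_
    filter_upwards [hbox, hone] with x hx1 hx2 hx3
    have hx3' : 4 * r * D ≤ sq x := hx3
    show x ∈ ⋃ j, A j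
    have hlt : ∀ i, x i < 1 := fun i => lt_of_le_of_ne (abs_le.1 (hx1 i)).2 (hx2 i)
    have hge : ∀ i, -1 ≤ x i := fun i => (abs_le.1 (hx1 i)).1
    have hnn : ∀ i, 0 ≤ (q : ℝ) * (x i + 1) := fun i => mul_nonneg hq'.le (by linarith [hge i])
    obtain ⟨v, hv⟩ : ∃ v : Fin D → Fin (2 * q), ∀ i, ((v i : ℕ)) = ⌊(q : ℝ) * (x i + 1)⌋₊ := by
      refine ⟨fun i => ⟨⌊(q : ℝ) * (x i + 1)⌋₊, ?_⟩, fun i => rfl⟩
      rw [Nat.floor_lt (hnn i)]
      push_cast
      nlinarith [hlt i]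
    have hcell : x ∈ gcell v := by
      intro i _
      have h1 := Nat.floor_le (hnn i)
      have h2 := Nat.lt_floor_add_one ((q : ℝ) * (x i + 1))
      rw [← hv i] at h1 h2
      unfold pt
      constructor
      · rw [sub_le_iff_le_add, div_le_iff₀ hq']
        linarith
      · have : ((v i : ℕ) : ℝ) / q - 1 + 1 / q = (((v i : ℕ) : ℝ) + 1) / q - 1 := by ring
        rw [this, lt_sub_iff_add_lt, lt_div_iff₀ hq']
        linarith
    have h1 : 2 * t ≤ gcn x := by
      have h2 : (2 * t) ^ 2 ≤ gcn x ^ 2 := by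
        rw [gcn_sq, mul_pow, ht2]
        linarith
      exact le_of_sq_le_sq h2 (gcn_nonneg x)
    have h2 : gcn x - gcn (x - pt v) ≤ gcn (pt v) := by
      have h3 := gcn_add (pt v) (x - pt v)
      rw [add_sub_cancel] at h3
      linarith
    have h3 := hnear v x hcell
    have ht0 : 0 ≤ t := hs0.trans hst
    have h4 : t ≤ gcn (pt v) := by linarith
    have h5 := pow_le_pow_left₀ ht0 h4 2
    rw [gcn_sq, ht2] at h5
    rw [Set.mem_iUnion]
    exact ⟨C v, (hmemA _ _).2 ⟨v, ⟨rfl, h5⟩, hcell⟩⟩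
  obtain ⟨hT0, hTt⟩ := hTM D
  have hfinal : ENNReal.ofReal β * mu D Set.univ ≤
      ENNReal.ofReal (k * Real.exp (-(η * D / 32))) * mu D Set.univ := by
    calc ENNReal.ofReal β * mu D Set.univ ≤ mu D {x | 4 * r * D ≤ sq x} := hFar D hD
      _ ≤ mu D (⋃ j, A j) := hcov
      _ ≤ ∑ j, mu D (A j) := measure_iUnion_fintype_le _ _
      _ ≤ ∑ _j : Fin k, ENNReal.ofReal (Real.exp (-(η * D / 32))) * mu D Set.univ :=
          Finset.sum_le_sum fun j _ => hAmu j
      _ = ENNReal.ofReal (k * Real.exp (-(η * D / 32))) * mu D Set.univ := by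
          rw [Finset.sum_const, Finset.card_univ, Fintype.card_fin, nsmul_eq_mul,
            ENNReal.ofReal_mul (Nat.cast_nonneg k), ENNReal.ofReal_natCast, mul_assoc]
  have h1 : ENNReal.ofReal β ≤ ENNReal.ofReal (k * Real.exp (-(η * D / 32))) :=
    (ENNReal.mul_le_mul_iff_left hT0 hTt).1 hfinal
  rw [ENNReal.ofReal_le_ofReal_iff (by positivity)] at h1
  calc β * Real.exp (η * D / 32) ≤ k * Real.exp (-(η * D / 32)) * Real.exp (η * D / 32) :=
        mul_le_mul_of_nonneg_right h1 (Real.exp_pos _).le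
    _ = k := by
        rw [mul_assoc, ← Real.exp_add, neg_add_cancel, Real.exp_zero, mul_one]

end Pool.Agent.U208.SI
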